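import Mathlib
import Pool.Agent.Helper93.TP.Defs2

/-! TP-8: dimension of `ZT`. -/

namespace Pool.Agent.Helper93.TP

open MvPolynomial Module

set_option linter.unusedSectionVars false

section

variable {σ : Type*} [Fintype σ]

private theorem h20_lf_homog (b : σ → ℂ) : (lf b).IsHomogeneous 1 := by
  unfold lf
  refine IsHomogeneous.sum _ _ _ fun i _ => ?_
  rw [smul_eq_C_mul]
  have := (isHomogeneous_C σ (b i)).mul (isHomogeneous_X ℂ i)
  simpa using this

theorem range_nu_le_T3 {σ : Type*} [Fintype σ] (b : σ → ℂ) :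
    LinearMap.range (nu b) ≤ T3 σ := by
  rintro _ ⟨ξ, rfl⟩
  intro y _
  show (nu b) ξ y ∈ homogeneousSubmodule σ ℂ 3
  rw [mem_homogeneousSubmodule]
  have h1 : (lf b ^ 2).IsHomogeneous (1 * 2) := (h20_lf_homog b).pow 2
  have h2 : (vec ξ y).IsHomogeneous 1 := h20_lf_homog _
  exact h1.mul h2

theorem ZT_le_T3 {σ : Type*} [Fintype σ] {K : ℕ} (cl : σ → Fin (K + 1))
    (Θ : Fin (K + 1) → Submodule ℂ (Fin 3 → ℂ)) : ZT cl Θ ≤ T3 σ := by
  unfold ZT
  rw [Submodule.span_le]
  rintro f ⟨i, q, η, hq, _, rfl⟩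
  intro y _
  refine Submodule.smul_mem _ _ ?_
  rw [mem_homogeneousSubmodule] at hq ⊢
  exact (isHomogeneous_X ℂ i).mul hq

theorem P0_le_ZT {σ : Type*} [Fintype σ] {K : ℕ} (cl : σ → Fin (K + 1))
    (nn : Fin (K + 1) → Fin 3 → ℂ)
    (Θ : Fin (K + 1) → Submodule ℂ (Fin 3 → ℂ)) (hΘ : ∀ c, nn c ∈ Θ c) :
    P0 cl nn ≤ ZT cl Θ := by
  unfold P0 ZT
  apply Submodule.span_mono
  rintro f ⟨i, q, hq, rfl⟩
  exact ⟨i, q, nn (cl i), hq, hΘ _, rfl⟩

/-- the exponents of degree three -/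
private noncomputable def h20_A (σ : Type*) [Fintype σ] [DecidableEq σ] : Finset (σ →₀ ℕ) :=
  Finset.finsuppAntidiag Finset.univ 3

private theorem h20_mem_A [DecidableEq σ] (α : σ →₀ ℕ) : α ∈ h20_A σ ↔ α.degree = 3 := by
  unfold h20_A
  rw [Finset.mem_finsuppAntidiag, Finsupp.degree_eq_sum]
  simp

/-- vectors of coefficients to vector valued forms -/
private noncomputable def h20_Phi (σ : Type*) [Fintype σ] [DecidableEq σ] :
    (h20_A σ → Fin 3 → ℂ) →ₗ[ℂ] (Fin 3 → MvPolynomial σ ℂ) where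
  toFun v := fun y => ∑ α : h20_A σ, monomial (α : σ →₀ ℕ) (v α y)
  map_add' := by
    intro v w
    funext y
    simp [Finset.sum_add_distrib]
  map_smul' := by
    intro c v
    funext y
    simp [Finset.smul_sum, smul_monomial]

private theorem h20_coeff [DecidableEq σ] (v : h20_A σ → Fin 3 → ℂ) (α : h20_A σ) (y : Fin 3) :
    coeff (α : σ →₀ ℕ) (h20_Phi σ v y) = v α y := by
  simp only [h20_Phi, LinearMap.coe_mk, AddHom.coe_mk, coeff_sum, coeff_monomial]
  rw [Finset.sum_eq_single α]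
  · simp
  · intro β _ hβ
    rw [if_neg]
    intro h
    exact hβ (Subtype.ext h)
  · intro h
    exact absurd (Finset.mem_univ α) h

private theorem h20_inj [DecidableEq σ] : Function.Injective (h20_Phi σ) := by
  intro v w h
  funext α y
  rw [← h20_coeff v α y, ← h20_coeff w α y, h]

private theorem h20_T3_le [DecidableEq σ] : T3 σ ≤ LinearMap.range (h20_Phi σ) := by
  intro f hf
  refine ⟨fun α y => coeff (α : σ →₀ ℕ) (f y), ?_⟩
  funext y
  have hy : (f y).IsHomogeneous 3 := by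
    rw [← mem_homogeneousSubmodule]
    exact hf y (Set.mem_univ y)
  ext β
  simp only [h20_Phi, LinearMap.coe_mk, AddHom.coe_mk, coeff_sum, coeff_monomial]
  by_cases hβ : β ∈ h20_A σ
  · rw [Finset.sum_eq_single ⟨β, hβ⟩]
    · simp
    · intro γ _ hγ
      rw [if_neg]
      intro h
      exact hγ (Subtype.ext h)
    · intro h
      exact absurd (Finset.mem_univ _) h
  · rw [Finset.sum_eq_zero]
    · by_contra h
      apply hβ
      rw [h20_mem_A, Finsupp.degree_eq_weight_one]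
      exact hy (Ne.symm h)
    · intro γ _
      rw [if_neg]
      rintro rfl
      exact hβ γ.2

private theorem h20_finrank_T3_le [DecidableEq σ] :
    finrank ℂ (T3 σ) ≤ (h20_A σ).card * 3 := by
  have h1 : finrank ℂ (T3 σ) ≤ finrank ℂ (LinearMap.range (h20_Phi σ)) :=
    Submodule.finrank_mono h20_T3_le
  refine h1.trans ((LinearMap.finrank_range_le _).trans ?_)
  rw [Module.finrank_pi_fintype]
  simp

variable {K : ℕ} (cl : σ → Fin (K + 1)) (Θ : Fin (K + 1) → Submodule ℂ (Fin 3 → ℂ))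

/-- the subspace attached to a monomial -/
private noncomputable def h20_Th (α : σ →₀ ℕ) : Submodule ℂ (Fin 3 → ℂ) :=
  ⨆ i ∈ α.support, Θ (cl i)

private theorem h20_mono_mem [DecidableEq σ] (α : σ →₀ ℕ) (hα : α.degree = 3) (η : Fin 3 → ℂ)
    (hη : η ∈ h20_Th cl Θ α) : (fun y => monomial α (η y)) ∈ ZT cl Θ := by
  let L : (Fin 3 → ℂ) →ₗ[ℂ] (Fin 3 → MvPolynomial σ ℂ) :=
    { toFun := fun η y => monomial α (η y)
      map_add' := by intro a b; funext y; simp
      map_smul' := by intro c a; funext y; simp [smul_monomial] }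
  have h1 : h20_Th cl Θ α ≤ (ZT cl Θ).comap L := by
    unfold h20_Th
    refine iSup₂_le fun i hi => ?_
    intro η hη
    rw [Submodule.mem_comap]
    apply Submodule.subset_span
    have hle : Finsupp.single i 1 ≤ α := by
      rw [Finsupp.single_le_iff]
      exact Nat.one_le_iff_ne_zero.2 (Finsupp.mem_support_iff.1 hi)
    have hadd : Finsupp.single i 1 + (α - Finsupp.single i 1) = α := add_tsub_cancel_of_le hle
    refine ⟨i, monomial (α - Finsupp.single i 1) 1, η, ?_, hη, ?_⟩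
    · rw [mem_homogeneousSubmodule]
      refine isHomogeneous_monomial _ ?_
      have h2 : (Finsupp.single i 1 + (α - Finsupp.single i 1)).degree = 3 := by rw [hadd, hα]
      rw [map_add, Finsupp.degree_single] at h2
      omega
    · funext y
      show monomial α (η y) = η y • (X i * monomial (α - Finsupp.single i 1) 1)
      rw [X, monomial_mul, hadd, smul_monomial]
      simp
  exact h1 hη

private theorem h20_finrank_ZT [DecidableEq σ] :
    ∑ α : h20_A σ, finrank ℂ (h20_Th cl Θ (α : σ →₀ ℕ)) ≤ finrank ℂ (ZT cl Θ) := by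
  have hfin : FiniteDimensional ℂ (ZT cl Θ) := by
    have h1 : ZT cl Θ ≤ LinearMap.range (h20_Phi σ) := (ZT_le_T3 cl Θ).trans h20_T3_le
    exact Submodule.finiteDimensional_of_le h1
  let J : (∀ α : h20_A σ, h20_Th cl Θ (α : σ →₀ ℕ)) →ₗ[ℂ] (h20_A σ → Fin 3 → ℂ) :=
    { toFun := fun v α => (v α : Fin 3 → ℂ)
      map_add' := by intro a b; rfl
      map_smul' := by intro c a; rfl }
  have hJ : Function.Injective J := by
    intro v w h
    funext α
    exact Subtype.ext (congrFun h α)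
  have hmem : ∀ v, (h20_Phi σ ∘ₗ J) v ∈ ZT cl Θ := by
    intro v
    have h1 : (h20_Phi σ ∘ₗ J) v = ∑ α : h20_A σ, fun y => monomial (α : σ →₀ ℕ)
        ((v α : Fin 3 → ℂ) y) := by
      funext y
      rw [Finset.sum_apply]
      rfl
    rw [h1]
    refine Submodule.sum_mem _ fun α _ => ?_
    exact h20_mono_mem cl Θ α ((h20_mem_A _).1 α.2) _ (v α).2
  have hinj : Function.Injective ((h20_Phi σ ∘ₗ J).codRestrict (ZT cl Θ) hmem) := by
    intro v w h
    apply hJ
    apply h20_inj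
    exact congrArg Subtype.val h
  have h2 := LinearMap.finrank_le_finrank_of_injective hinj
  rw [Module.finrank_pi_fintype] at h2
  exact h2

/-- sum of three unit exponents -/
private noncomputable def h20_e3 (t : σ × σ × σ) : σ →₀ ℕ :=
  Finsupp.single t.1 1 + Finsupp.single t.2.1 1 + Finsupp.single t.2.2 1

private theorem h20_Th_e3 [DecidableEq σ] (t : σ × σ × σ) :
    h20_Th cl Θ (h20_e3 t) = Θ (cl t.1) ⊔ Θ (cl t.2.1) ⊔ Θ (cl t.2.2) := by
  have hs : (h20_e3 t).support = {t.1, t.2.1, t.2.2} := by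
    ext i
    simp only [h20_e3, Finsupp.mem_support_iff, Finsupp.add_apply, Finsupp.single_apply,
      Finset.mem_insert, Finset.mem_singleton]
    constructor
    · intro h
      by_contra hcon
      push Not at hcon
      apply h
      rw [if_neg (Ne.symm hcon.1), if_neg (Ne.symm hcon.2.1), if_neg (Ne.symm hcon.2.2)]
      rfl
    · rintro (h | h | h) <;> subst h <;> simp
  unfold h20_Th
  rw [hs]
  simp [iSup_or, iSup_sup_eq, sup_assoc]

private theorem h20_exists_e3 [DecidableEq σ] (α : σ →₀ ℕ) (hα : α.degree = 3) :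
    ∃ t : σ × σ × σ, h20_e3 t = α := by
  have h1 : Multiset.card (Finsupp.toMultiset α) = 3 := by
    rw [Finsupp.card_toMultiset]
    rw [← hα, Finsupp.degree]
    rfl
  rw [Multiset.card_eq_three] at h1
  obtain ⟨a, b, c, h⟩ := h1
  have hinj : Function.Injective (Finsupp.toMultiset : (σ →₀ ℕ) → Multiset σ) := fun f g h => by
    rw [← Finsupp.toMultiset_toFinsupp f, h, Finsupp.toMultiset_toFinsupp]
  refine ⟨(a, b, c), ?_⟩
  apply hinj
  rw [h]
  simp [h20_e3, Finsupp.toMultiset_single]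

private theorem h20_fr_e3 [DecidableEq σ] (t : σ × σ × σ) :
    finrank ℂ (h20_Th cl Θ (h20_e3 t)) =
      finrank ℂ (Θ (cl t.1) ⊔ Θ (cl t.2.1) ⊔ Θ (cl t.2.2) : Submodule ℂ (Fin 3 → ℂ)) := by
  rw [h20_Th_e3]

private theorem h20_e3_mem [DecidableEq σ] (t : σ × σ × σ) : h20_e3 t ∈ h20_A σ := by
  rw [h20_mem_A]
  simp [h20_e3, map_add, Finsupp.degree_single]

private theorem h20_count [DecidableEq σ] (D : (σ →₀ ℕ) → ℕ) :
    6 * ∑ α ∈ h20_A σ, D α ≤ ∑ t : σ × σ × σ, D (h20_e3 t)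
      + 6 * ∑ s : σ × σ, D (h20_e3 (s.1, s.1, s.2)) := by
  have h1 : ∑ t : σ × σ × σ, D (h20_e3 t) =
      ∑ α ∈ h20_A σ, ∑ t ∈ Finset.univ.filter (fun t : σ × σ × σ => h20_e3 t = α),
        D (h20_e3 t) :=
    (Finset.sum_fiberwise_of_maps_to (fun t _ => h20_e3_mem t) _).symm
  have h2 : ∑ s : σ × σ, D (h20_e3 (s.1, s.1, s.2)) =
      ∑ α ∈ h20_A σ, ∑ s ∈ Finset.univ.filter
        (fun s : σ × σ => h20_e3 (s.1, s.1, s.2) = α), D (h20_e3 (s.1, s.1, s.2)) :=
    (Finset.sum_fiberwise_of_maps_to (fun t _ => h20_e3_mem _) _).symm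
  rw [h1, h2, Finset.mul_sum, Finset.mul_sum, ← Finset.sum_add_distrib]
  refine Finset.sum_le_sum fun α hα => ?_
  by_cases hex : ∃ s : σ × σ, h20_e3 (s.1, s.1, s.2) = α
  · obtain ⟨s, hs⟩ := hex
    have h3 : D α ≤ ∑ s ∈ Finset.univ.filter
        (fun s : σ × σ => h20_e3 (s.1, s.1, s.2) = α), D (h20_e3 (s.1, s.1, s.2)) := by
      have := Finset.single_le_sum (f := fun s : σ × σ => D (h20_e3 (s.1, s.1, s.2)))
        (s := Finset.univ.filter (fun s : σ × σ => h20_e3 (s.1, s.1, s.2) = α))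
        (fun _ _ => Nat.zero_le _) (a := s) (by simp [hs])
      simp only [hs] at this
      exact this
    omega
  · push Not at hex
    obtain ⟨⟨a, b, c⟩, ht⟩ := h20_exists_e3 α ((h20_mem_A α).1 hα)
    have hab : a ≠ b := by
      rintro rfl
      exact hex (a, c) ht
    have hac : a ≠ c := by
      rintro rfl
      refine hex (a, b) ?_
      rw [← ht]
      simp only [h20_e3]
      abel
    have hbc : b ≠ c := by
      rintro rfl
      refine hex (b, a) ?_
      rw [← ht]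
      simp only [h20_e3]
      abel
    let S : Finset (σ × σ × σ) :=
      {(a, b, c), (a, c, b), (b, a, c), (b, c, a), (c, a, b), (c, b, a)}
    have hS : S.card = 6 := by
      simp only [S]
      rw [Finset.card_insert_of_notMem, Finset.card_insert_of_notMem,
        Finset.card_insert_of_notMem, Finset.card_insert_of_notMem,
        Finset.card_insert_of_notMem, Finset.card_singleton]
      all_goals simp [hab, hac, hbc, hab.symm, hac.symm, hbc.symm]
    have hSsub : S ⊆ Finset.univ.filter (fun t : σ × σ × σ => h20_e3 t = α) := by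
      intro t hts
      simp only [Finset.mem_filter, Finset.mem_univ, true_and]
      rw [← ht]
      simp only [S, Finset.mem_insert, Finset.mem_singleton] at hts
      rcases hts with h | h | h | h | h | h <;> subst h <;> simp only [h20_e3] <;> abel
    have h3 : 6 * D α ≤ ∑ t ∈ Finset.univ.filter (fun t : σ × σ × σ => h20_e3 t = α),
        D (h20_e3 t) := by
      calc 6 * D α = ∑ t ∈ S, D (h20_e3 t) := by
            rw [← hS, Finset.card_eq_sum_ones, Finset.sum_mul]
            refine Finset.sum_congr rfl fun t ht2 => ?_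
            have := hSsub ht2
            rw [Finset.mem_filter] at this
            rw [this.2, one_mul]
        _ ≤ _ := Finset.sum_le_sum_of_subset hSsub
    omega

theorem finrank_ZT_ge {σ : Type*} [Fintype σ] [DecidableEq σ] {K : ℕ} (cl : σ → Fin (K + 1))
    (Θ : Fin (K + 1) → Submodule ℂ (Fin 3 → ℂ)) :
    6 * finrank ℂ (T3 σ) ≤ 6 * finrank ℂ (ZT cl Θ)
      + ∑ i, ∑ j, ∑ k, (3 - finrank ℂ (Θ (cl i) ⊔ Θ (cl j) ⊔ Θ (cl k) : Submodule ℂ (Fin 3 → ℂ)))
      + 6 * Fintype.card σ * ∑ i, (3 - finrank ℂ (Θ (cl i))) := by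
  have h1 := h20_finrank_T3_le (σ := σ)
  have h2 := h20_finrank_ZT cl Θ
  have h3 := h20_count (σ := σ) (fun α => 3 - finrank ℂ (h20_Th cl Θ α))
  simp only [h20_fr_e3] at h3
  have h4 : (h20_A σ).card * 3 ≤ ∑ α : h20_A σ, finrank ℂ (h20_Th cl Θ (α : σ →₀ ℕ)) +
      ∑ α ∈ h20_A σ, (3 - finrank ℂ (h20_Th cl Θ α)) := by
    rw [← Finset.sum_coe_sort (h20_A σ), ← Finset.sum_add_distrib]
    calc (h20_A σ).card * 3 = ∑ α : h20_A σ, 3 := by simp
      _ ≤ _ := Finset.sum_le_sum fun α _ => by omega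
  have h5 : ∑ t : σ × σ × σ, (3 - finrank ℂ (Θ (cl t.1) ⊔ Θ (cl t.2.1) ⊔ Θ (cl t.2.2) :
      Submodule ℂ (Fin 3 → ℂ))) = ∑ i, ∑ j, ∑ k, (3 - finrank ℂ (Θ (cl i) ⊔ Θ (cl j) ⊔
        Θ (cl k) : Submodule ℂ (Fin 3 → ℂ))) := by
    rw [Fintype.sum_prod_type]
    refine Finset.sum_congr rfl fun i _ => ?_
    rw [Fintype.sum_prod_type]
  have h6 : ∑ s : σ × σ, (3 - finrank ℂ (Θ (cl s.1) ⊔ Θ (cl s.1) ⊔ Θ (cl s.2) :
      Submodule ℂ (Fin 3 → ℂ))) ≤ Fintype.card σ * ∑ i, (3 - finrank ℂ (Θ (cl i))) := by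
    rw [Fintype.sum_prod_type, Finset.mul_sum]
    refine Finset.sum_le_sum fun i _ => ?_
    calc ∑ j, (3 - finrank ℂ (Θ (cl i) ⊔ Θ (cl i) ⊔ Θ (cl j) : Submodule ℂ (Fin 3 → ℂ)))
        ≤ ∑ _j : σ, (3 - finrank ℂ (Θ (cl i))) := by
          refine Finset.sum_le_sum fun j _ => ?_
          have : finrank ℂ (Θ (cl i)) ≤
              finrank ℂ (Θ (cl i) ⊔ Θ (cl i) ⊔ Θ (cl j) : Submodule ℂ (Fin 3 → ℂ)) :=
            Submodule.finrank_mono (le_sup_of_le_left le_sup_left)
          omega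
      _ = _ := by simp
  rw [h5] at h3
  rw [mul_assoc]
  omega

end

end Pool.Agent.Helper93.TP
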